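import Mathlib
import Pool.Agent.H92.MF.Inst

/-!
# Low-degree polynomials of linear degree fail below the spectral threshold

In multi-frequency synchronization over any group with an invariant probability measure (a finite
group with uniformly distributed signal, the circle group, any compact group), with any fixed family
of non-trivial irreducible unitary representations no two of which are equivalent or conjugate, for
every signal strength `0 ≤ λ < 1` there are constants `δ > 0` and `C` such that no polynomial of
degree at most `δ n` in the entries of the observed matrices separates the planted model from the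
null model: the squared difference of its expectations is at most `C` times its variance under the
null model. The constants depend only on `λ` and the dimensions of the representations.

The definitions are in `Pool.Agent.H92.MF.Model` (model, expectations) and
`Pool.Agent.H92.MF.Schur` (irreducibility, equivalence, conjugate). The two models of the problem
are also spelled out in `Pool.Agent.H92.MF.Inst`: `circle_case` (angles uniform on `[0, 2π)`,
frequencies `1, …, L`) and `finite_case` (finite groups).
-/

open MeasureTheory ProbabilityTheory Matrix Pool.Agent.H92.MF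

theorem Pool.Agent.Results.MP_634cec_lc.LinearDegree.result
    (Λ : Type) [Fintype Λ] (d : Λ → ℕ) (lam : ℝ) (h0 : 0 ≤ lam) (h1 : lam < 1) :
    ∃ δ C : ℝ, 0 < δ ∧ 0 ≤ C ∧
      ∀ (G : Type) [Group G] [MeasurableSpace G] [MeasurableMul G] (μ : Measure G)
        [IsProbabilityMeasure μ] [μ.IsMulLeftInvariant]
        (ρ : (a : Λ) → G →* Matrix (Fin (d a)) (Fin (d a)) ℂ)
        (J : (a : Λ) → Option (Matrix (Fin (d a)) (Fin (d a)) ℂ)),
        (∀ a i j, Measurable fun g => ρ a g i j) →
        (∀ a g, (ρ a g)ᴴ * ρ a g = 1) → (∀ a, Irred (ρ a)) → (∀ a, ∃ g, ρ a g ≠ 1) →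
        (∀ a b, a ≠ b → ¬ Equivalent (ρ a) (ρ b) ∧ ¬ Equivalent (ρ a) (conjRep (ρ b))) →
        (∀ a, J a = none → ¬ Equivalent (ρ a) (conjRep (ρ a))) →
        (∀ a V, J a = some V →
          V * Vᴴ = 1 ∧ ∀ g, ρ a g * V = V * (ρ a g).map (starRingEnd ℂ)) →
        ∀ n D : ℕ, 1 ≤ n → (D : ℝ) ≤ δ * n →
          ∀ f : MvPolynomial (Idx n d) ℝ, f.totalDegree ≤ D →
            (plantedE μ (fun a g => ρ a g) J lam f - nullE J f) ^ 2 ≤ C * nullVar J f :=
  group_case Λ d lam h0 h1
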